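import Pool.Agent.Helper99.BK.Stmts

set_option autoImplicit false

namespace Pool.Helper99.BK

open NumberField Polynomial

noncomputable def fldP (x y : ℤ) : ℚ[X] := X ^ 3 - C (3 * (x : ℚ)) * X + C (2 * (y : ℚ))

theorem fld_deg (x y : ℤ) : (fldP x y).natDegree = 3 := by
  unfold fldP
  compute_degree!

theorem fld_noroot (x y : ℤ) (hxy : ∀ n : ℤ, n ^ 3 - 3 * x * n + 2 * y ≠ 0) (r : ℚ) :
    ¬ IsRoot (fldP x y) r := by
  intro hr
  have hr' : r ^ 3 - 3 * (x : ℚ) * r + 2 * (y : ℚ) = 0 := by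
    have h := hr
    simp only [fldP, IsRoot.def, eval_add, eval_sub, eval_pow, eval_X, eval_mul, eval_C] at h
    exact h
  let p : ℤ[X] := X ^ 3 - C (3 * x) * X + C (2 * y)
  have hp : p.Monic := by
    show (X ^ 3 - C (3 * x) * X + C (2 * y) : ℤ[X]).Monic
    monicity!
  have hap : aeval r p = 0 := by
    show aeval r (X ^ 3 - C (3 * x) * X + C (2 * y) : ℤ[X]) = 0
    simp only [map_add, map_sub, map_mul, map_pow, aeval_X, aeval_C]
    simpa using hr'
  obtain ⟨n, hn, _⟩ := exists_integer_of_is_root_of_monic hp hap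
  have hn' : r = (n : ℚ) := by simpa using hn
  rw [hn'] at hr'
  exact hxy n (by exact_mod_cast hr')

theorem fld_irr (x y : ℤ) (hxy : ∀ n : ℤ, n ^ 3 - 3 * x * n + 2 * y ≠ 0) :
    Irreducible (fldP x y) :=
  irreducible_of_degree_le_three_of_not_isRoot (by rw [fld_deg]; decide)
    (fld_noroot x y hxy)

theorem st_FLD : ST_FLD := by
  intro x y hxy
  have : Fact (Irreducible (fldP x y)) := ⟨fld_irr x y hxy⟩
  have hne : fldP x y ≠ 0 := (fld_irr x y hxy).ne_zero
  have halg : (AdjoinRoot.instAlgebra (fldP x y) : Algebra ℚ (AdjoinRoot (fldP x y))) =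
      DivisionRing.toRatAlgebra := Subsingleton.elim _ _
  have hfr0 : @Module.finrank ℚ (AdjoinRoot (fldP x y)) _ _
      (AdjoinRoot.instAlgebra (fldP x y) : Algebra ℚ (AdjoinRoot (fldP x y))).toModule = 3 := by
    rw [(AdjoinRoot.powerBasis hne).finrank, AdjoinRoot.powerBasis_dim, fld_deg]
  have hfr : Module.finrank ℚ (AdjoinRoot (fldP x y)) = 3 := by
    rw [← hfr0, halg]
  have : CharZero (AdjoinRoot (fldP x y)) := algebraRat.charZero _
  have hfd : FiniteDimensional ℚ (AdjoinRoot (fldP x y)) :=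
    Module.finite_of_finrank_pos (by rw [hfr]; norm_num)
  have hroot : (AdjoinRoot.root (fldP x y)) ^ 3 - 3 * (x : AdjoinRoot (fldP x y)) *
      (AdjoinRoot.root (fldP x y)) + 2 * (y : AdjoinRoot (fldP x y)) = 0 := by
    have h := AdjoinRoot.eval₂_root (fldP x y)
    unfold fldP at h ⊢
    simp only [eval₂_add, eval₂_sub, eval₂_mul, eval₂_pow, eval₂_X, eval₂_C] at h
    simp only [map_mul, map_ofNat, map_intCast] at h
    exact h
  refine ⟨AdjoinRoot (fldP x y), inferInstance, ⟨⟩,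
    AdjoinRoot.root (fldP x y), hfr, hroot, ?_, ?_⟩
  · intro q hq
    have h1 : (algebraMap ℚ (AdjoinRoot (fldP x y))) (q ^ 3 - 3 * (x : ℚ) * q + 2 * (y : ℚ)) = 0 := by
      rw [hq] at hroot
      simp only [map_add, map_sub, map_mul, map_pow, map_ofNat, map_intCast]
      exact hroot
    have h2 := (map_eq_zero _).1 h1
    refine fld_noroot x y hxy q ?_
    simp only [fldP, IsRoot.def, eval_add, eval_sub, eval_pow, eval_X, eval_mul, eval_C]
    exact h2
  · intro z hz
    refine ⟨AdjoinRoot.lift (algebraMap ℚ ℂ) z ?_, AdjoinRoot.lift_root _⟩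
    simp only [fldP, eval₂_add, eval₂_sub, eval₂_mul, eval₂_pow, eval₂_X, eval₂_C]
    simp only [map_mul, map_ofNat, map_intCast]
    exact hz

end Pool.Helper99.BK
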