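import Pool.Agent.Helper99.BK.Stmts

set_option autoImplicit false

namespace Pool.Helper99.BK

open NumberField

theorem grb_logu {K : Type} [Field K] [NumberField K] (σ : K →+* ℂ) (ε1 ε2 : (𝓞 K)ˣ) (m n : ℤ)
    (u : (𝓞 K)ˣ) (h : u = ε1 ^ m * ε2 ^ n ∨ u = -(ε1 ^ m * ε2 ^ n)) :
    ‖σ ((u : 𝓞 K) : K)‖ = ‖σ (((ε1 : 𝓞 K) : K) ^ m * ((ε2 : 𝓞 K) : K) ^ n)‖ := by
  have e1 : (((ε1 ^ m * ε2 ^ n : (𝓞 K)ˣ) : 𝓞 K) : K)
      = ((ε1 : 𝓞 K) : K) ^ m * ((ε2 : 𝓞 K) : K) ^ n := by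
    show algebraMap (𝓞 K) K ((ε1 ^ m * ε2 ^ n : (𝓞 K)ˣ) : 𝓞 K) =
      algebraMap (𝓞 K) K (ε1 : 𝓞 K) ^ m * algebraMap (𝓞 K) K (ε2 : 𝓞 K) ^ n
    rw [NumberField.Units.coe_mul, NumberField.Units.coe_zpow, NumberField.Units.coe_zpow]
  rcases h with h | h
  · rw [h, e1]
  · rw [h]
    have e2 : (((-(ε1 ^ m * ε2 ^ n) : (𝓞 K)ˣ) : 𝓞 K) : K)
        = -(((ε1 ^ m * ε2 ^ n : (𝓞 K)ˣ) : 𝓞 K) : K) := by
      show algebraMap (𝓞 K) K ((-(ε1 ^ m * ε2 ^ n) : (𝓞 K)ˣ) : 𝓞 K) =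
        -algebraMap (𝓞 K) K ((ε1 ^ m * ε2 ^ n : (𝓞 K)ˣ) : 𝓞 K)
      rw [Units.val_neg, map_neg]
    rw [e2, e1, map_neg, norm_neg]

theorem grb_loggel {K : Type} [Field K] [NumberField K] (σ : K →+* ℂ) (π : 𝓞 K) (hπ : π ≠ 0)
    (ε1 ε2 : (𝓞 K)ˣ) (p : Fin 3 → ℤ)
    (u : (𝓞 K)ˣ) (h : u = ε1 ^ (p 1) * ε2 ^ (p 2) ∨ u = -(ε1 ^ (p 1) * ε2 ^ (p 2))) :
    Real.log ‖σ (gel π ε1 ε2 p)‖ =
      Real.log ‖σ ((u : 𝓞 K) : K)‖ + (p 0 : ℝ) * Real.log ‖σ (π : K)‖ := by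
  have hπ' : (π : K) ≠ 0 := by
    intro h0
    exact hπ (by exact_mod_cast h0)
  have hs : σ (π : K) ≠ 0 := by
    intro h0
    exact hπ' ((map_eq_zero σ).1 h0)
  have hu : σ ((u : 𝓞 K) : K) ≠ 0 := by
    intro h0
    have := (map_eq_zero σ).1 h0
    exact u.ne_zero (by exact_mod_cast this)
  have e1 : gel π ε1 ε2 p = (π : K) ^ (p 0) *
      (((ε1 : 𝓞 K) : K) ^ (p 1) * ((ε2 : 𝓞 K) : K) ^ (p 2)) := by
    unfold gel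
    ring
  rw [e1, map_mul, norm_mul, ← grb_logu σ ε1 ε2 (p 1) (p 2) u h, map_zpow₀, norm_zpow,
    Real.log_mul (by positivity) (by positivity), Real.log_zpow]
  ring

theorem st_GRb (hPH : ST_PH) (hGRa : ST_GRa) : ST_GRb := by
  classical
  intro c hc
  obtain ⟨C, hC, hPH⟩ := hPH
  obtain ⟨c0, C3', hc0, hC3', hGRa⟩ := hGRa c hc
  refine ⟨2 * 18 ^ 3 * C, by nlinarith, ?_⟩
  intro K _ _ hK hcard σ hσ π hπ ε1 ε2 hUR lam A h ν hh hdisc hA hN hν hlam ρ hρ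
  have hpos : 0 < A + h := by linarith
  have hρ' : C * (A + h) ≤ ρ / 18 := by
    rw [le_div_iff₀ (by norm_num)]
    nlinarith [mul_pos (lt_of_lt_of_le one_pos hC) hpos]
  have h1 := hPH K hK π hπ A h ν (ρ / 18) hh hdisc hA hN hν hρ'
  rw [hcard] at h1
  have hρ0 : 0 ≤ ρ / 18 := le_trans (by nlinarith [mul_pos (lt_of_lt_of_le one_pos hC) hpos]) hρ'
  -- finiteness
  set Sset : Set (Fin 3 → ℤ) := {p : Fin 3 → ℤ | nrm σ π ε1 ε2 A lam p ≤ ρ} with hS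
  obtain ⟨S, hSb⟩ : ∃ S : ℝ, ∀ i, |Real.log ‖σ i (π : K)‖| ≤ S := by
    refine ⟨∑ i, |Real.log ‖σ i (π : K)‖|, fun i => ?_⟩
    exact Finset.single_le_sum (f := fun i => |Real.log ‖σ i (π : K)‖|)
      (fun j _ => abs_nonneg _) (Finset.mem_univ i)
  have hS0 : 0 ≤ S := le_trans (abs_nonneg _) (hSb 0)
  obtain ⟨_, hP2, _⟩ := hGRa K hK σ hσ π hπ ε1 ε2 hUR 1 lam A S one_ne_zero hA hSb
  have hfin : Sset.Finite := by
    have hbox : (Set.pi Set.univ (fun _ : Fin 3 =>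
        Set.Icc (-⌈C3' * (1 + S) * ρ⌉) ⌈C3' * (1 + S) * ρ⌉) : Set (Fin 3 → ℤ)).Finite :=
      Set.Finite.pi (fun _ => Set.finite_Icc _ _)
    refine hbox.subset ?_
    intro p hp i _
    have h2 := hP2 p i
    have h3 : C3' * (1 + S) * nrm σ π ε1 ε2 A lam p ≤ C3' * (1 + S) * ρ :=
      mul_le_mul_of_nonneg_left hp (by positivity)
    have h4 : |((p i : ℤ) : ℝ)| ≤ (⌈C3' * (1 + S) * ρ⌉ : ℝ) := (h2.trans h3).trans (Int.le_ceil _)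
    have h5 : |p i| ≤ ⌈C3' * (1 + S) * ρ⌉ := by exact_mod_cast h4
    exact ⟨(abs_le.1 h5).1, (abs_le.1 h5).2⟩
  -- the covering map
  let Φ : (Fin 3 → ℤ) × Bool → ℤ × (𝓞 K)ˣ := fun x =>
    (x.1 0, if x.2 then ε1 ^ (x.1 1) * ε2 ^ (x.1 2) else -(ε1 ^ (x.1 1) * ε2 ^ (x.1 2)))
  have hcov : TT K π A (ρ / 18) ⊆ Φ '' (Sset ×ˢ (Set.univ : Set Bool)) := by
    rintro ⟨k, u⟩ ⟨hk, hu⟩
    obtain ⟨m, n, hmn⟩ := hUR.1 u
    have key : (![k, m, n] : Fin 3 → ℤ) ∈ Sset := by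
      have hlog : ∀ i, |Real.log ‖σ i (gel π ε1 ε2 ![k, m, n])‖| ≤ ρ / 18 := by
        intro i
        rw [grb_loggel (σ i) π hπ ε1 ε2 ![k, m, n] u (by simpa using hmn)]
        simpa using hu (σ i)
      have hl := hlam ![k, m, n]
      have hk' : A * |((![k, m, n] : Fin 3 → ℤ) 0 : ℝ)| ≤ ρ / 18 := by
        have : |(k : ℝ)| * A ≤ ρ / 18 := hk
        simpa [mul_comm] using this
      have e3 : ∑ i, |Real.log ‖σ i (gel π ε1 ε2 ![k, m, n])‖| ≤ 3 * (ρ / 18) := by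
        rw [Fin.sum_univ_three]
        linarith [hlog 0, hlog 1, hlog 2]
      show nrm σ π ε1 ε2 A lam ![k, m, n] ≤ ρ
      unfold nrm
      linarith [hlog 1, hlog 2]
    rcases hmn with hmn | hmn
    · exact ⟨(![k, m, n], true), ⟨key, Set.mem_univ _⟩, by simp [Φ, hmn]⟩
    · exact ⟨(![k, m, n], false), ⟨key, Set.mem_univ _⟩, by simp [Φ, hmn]⟩
  have hprodfin : (Sset ×ˢ (Set.univ : Set Bool)).Finite := hfin.prod Set.finite_univ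
  have hcardle : (TT K π A (ρ / 18)).ncard ≤ 2 * Sset.ncard := by
    calc (TT K π A (ρ / 18)).ncard ≤ (Φ '' (Sset ×ˢ (Set.univ : Set Bool))).ncard :=
          Set.ncard_le_ncard hcov (hprodfin.image _)
      _ ≤ (Sset ×ˢ (Set.univ : Set Bool)).ncard := Set.ncard_image_le hprodfin
      _ = Sset.ncard * 2 := by
          rw [Set.ncard_prod, Set.ncard_univ]
          simp
      _ = 2 * Sset.ncard := by ring
  have hcard' : ((TT K π A (ρ / 18)).ncard : ℝ) ≤ 2 * (Sset.ncard : ℝ) := by exact_mod_cast hcardle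
  have hν0 : 0 ≤ ν := le_trans (Nat.cast_nonneg _) hν
  have h6 : C * ν * A * h ^ 2 * ((TT K π A (ρ / 18)).ncard : ℝ) ≤
      C * ν * A * h ^ 2 * (2 * (Sset.ncard : ℝ)) :=
    mul_le_mul_of_nonneg_left hcard' (by positivity)
  have h7 : (ρ / 18) ^ 3 ≤ C * ν * A * h ^ 2 * (2 * (Sset.ncard : ℝ)) := h1.trans h6
  have h8 : ρ ^ 3 = 18 ^ 3 * (ρ / 18) ^ 3 := by ring
  rw [h8]
  calc 18 ^ 3 * (ρ / 18) ^ 3 ≤ 18 ^ 3 * (C * ν * A * h ^ 2 * (2 * (Sset.ncard : ℝ))) :=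
        mul_le_mul_of_nonneg_left h7 (by norm_num)
    _ = 2 * 18 ^ 3 * C * ν * A * h ^ 2 * (Sset.ncard : ℝ) := by ring

end Pool.Helper99.BK
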